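import Mathlib
import Pool.Agent.H994R3.LeafwiseFinal

/-!
# A leafwise complex cycle that is nowhere near the origin a superposition of holomorphic curves

Setting (file `Pool/Agent/H994R3/LeafwiseDefs.lean`): `M = L × T` with the foliation by the leaves
`L × {t}`, a smooth leafwise almost complex structure `J`, the structure cones `C_y`, the
`C`-currents (closed convex cone generated by the Dirac currents of elements of `C`), cycles,
pseudoholomorphic curves in an open set `U` (proper somewhere injective `J`-holomorphic maps of
connected Riemann surfaces into `U` with image in a leaf), viewed as currents, and
superpositions of such curves.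

The counterexample: in `ℂ²` let `c` be the sum over the three directions
`v = (-1,0), (0,-1), (1,1)` of the currents
`α ↦ ∫_{r > 0, s ∈ ℝ²} α_{r v + i s}(v, i v) dr ds` (a multiple of `dd^c max(Re z, Re w, 0)`).
It is a positive closed current, and no holomorphic curve that is closed in a neighbourhood of the
origin lies in its support. The same current in a leaf `L × {0}`, `dim_ℂ L ≥ 2`, answers the
question negatively for every leaf dimension at least four and every codimension.
-/

set_option autoImplicit false

open TopologicalSpace
open Pool.Agent.H994R3.Leafwise

namespace Pool.Agent.Results.MP_03adb9_gt.NotSuperposition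

/-- Let `L` be a complex vector space of finite dimension `n ≥ 2` and `T` a real vector space of
finite dimension. On `M = L × T`, foliated by the complex vector spaces `L × {t}` with their
standard complex structure, there is a `C`-cycle `c` which on no open neighbourhood `U` of the
origin is a non-negative superposition of pseudoholomorphic curves in `U`. -/
theorem result (L T : Type*) [NormedAddCommGroup L] [NormedSpace ℂ L] [FiniteDimensional ℂ L]
    [NormedAddCommGroup T] [NormedSpace ℝ T] [FiniteDimensional ℝ T]
    (hL : 2 ≤ Module.finrank ℂ L) :
    ∃ c : Current 2 (⊤ : Opens (L × T)),
      c ∈ cCurrents (stdACS L T) ∧ IsCycle (p := 1) c ∧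
      ∀ U : Opens (L × T), (0 : L × T) ∈ U → ¬ IsSuperposition (stdACS L T) U c :=
  main hL

end Pool.Agent.Results.MP_03adb9_gt.NotSuperposition
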